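import Pool.Agent.Helper40K9.RF.Torus

set_option autoImplicit false
set_option linter.unusedVariables false
set_option linter.unusedSectionVars false

/-!
# Root finding in the online nearest neighbour tree

For every dimension `d ≥ 1` and every `ε > 0` there is a root-finding rule of constant size which
finds the root of the `d`-NN tree with probability at least `1 - ε`, for all `n` at once.
-/

namespace Pool.Agent.Results.MP_0a1a8a_pr.RootFinding

open MeasureTheory

/-- the side length `n ^ (1 / d)` of the torus of volume `n` -/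
noncomputable def side (d n : ℕ) : ℝ := (n : ℝ) ^ ((1 : ℝ) / d)

instance side_pos (d n : ℕ) [NeZero n] : Fact (0 < side d n) :=
  ⟨Real.rpow_pos_of_pos (by exact_mod_cast Nat.pos_of_ne_zero (NeZero.ne n)) _⟩

/-- the flat torus `ℝ ^ d / (n ^ (1 / d) ℤ) ^ d`, as a product of `d` circles of length
`n ^ (1 / d)` -/
abbrev Torus (d n : ℕ) : Type := Fin d → AddCircle (side d n)

/-- the metric of the torus, induced by the Euclidean metric: the root of the sum of the squares of
the distances of the coordinates -/
noncomputable def tdist {d n : ℕ} (x y : Torus d n) : ℝ := Real.sqrt (∑ k, dist (x k) (y k) ^ 2)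

/-- the uniform law on the torus: the product of the uniform laws on the circles -/
noncomputable def unif (d n : ℕ) [NeZero n] : Measure (Torus d n) :=
  Measure.pi fun _ => AddCircle.haarAddCircle

/-- `v_j` is the vertex to which `v_i` is attached: `j < i`, and `p_j` is closest to `p_i` among
`p_0, …, p_{i-1}` (ties, which have probability zero, are broken by the smallest index) -/
def Attach {d n : ℕ} (p : Fin n → Torus d n) (i j : Fin n) : Prop :=
  j < i ∧ (∀ k < i, tdist (p i) (p j) ≤ tdist (p i) (p k)) ∧
    ∀ k < j, tdist (p i) (p j) < tdist (p i) (p k)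

/-- the nearest neighbour tree `G_n` of the points `p_0, …, p_{n-1}` -/
def nnTree {d n : ℕ} (p : Fin n → Torus d n) : SimpleGraph (Fin n) where
  Adj a b := Attach p a b ∨ Attach p b a
  symm := ⟨fun _ _ h => h.symm⟩
  loopless := ⟨fun a h => by rcases h with h | h <;> exact absurd h.1 (lt_irrefl _)⟩

instance permSpace (n : ℕ) : MeasurableSpace (Equiv.Perm (Fin n)) := ⊤

/-- the joint law of `(p, σ)`: `p_0, …, p_{n-1}` are independent and uniform on the torus, and `σ`
is a uniform random bijection, independent of them -/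
noncomputable def law (d n : ℕ) [NeZero n] : Measure ((Fin n → Torus d n) × Equiv.Perm (Fin n)) :=
  (Measure.pi fun _ : Fin n => unif d n).prod (ProbabilityTheory.uniformOn Set.univ)

/-- the event `σ(v_0) ∈ H_n(σ(G_n))` -/
def Success (d n : ℕ) [NeZero n] (H : SimpleGraph (Fin n) → Finset (Fin n)) :
    Set ((Fin n → Torus d n) × Equiv.Perm (Fin n)) :=
  {q | q.2 0 ∈ H ((nnTree q.1).map q.2.toEmbedding)}

/-! ## Auxiliary facts -/

instance unif_prob (d n : ℕ) [NeZero n] : IsProbabilityMeasure (unif d n) := by
  unfold unif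
  infer_instance

instance permClass (n : ℕ) : MeasurableSingletonClass (Equiv.Perm (Fin n)) :=
  ⟨fun _ => MeasurableSpace.measurableSet_top⟩

instance perm_prob (n : ℕ) :
    IsProbabilityMeasure (ProbabilityTheory.uniformOn (Set.univ : Set (Equiv.Perm (Fin n)))) :=
  ProbabilityTheory.isProbabilityMeasure_uniformOn Set.finite_univ Set.univ_nonempty

instance law_prob (d n : ℕ) [NeZero n] : IsProbabilityMeasure (law d n) := by
  unfold law
  infer_instance

theorem measurable_tdist (d n : ℕ) : Measurable fun q : Torus d n × Torus d n => tdist q.1 q.2 := by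
  have h : Continuous fun q : Torus d n × Torus d n =>
      Real.sqrt (∑ k, dist (q.1 k) (q.2 k) ^ 2) := by fun_prop
  exact h.measurable

theorem measurable_pair (d n : ℕ) (i j : Fin n) :
    Measurable fun p : Fin n → Torus d n => tdist (p i) (p j) :=
  Measurable.comp (g := fun q : Torus d n × Torus d n => tdist q.1 q.2)
    (f := fun p : Fin n → Torus d n => (p i, p j)) (measurable_tdist d n)
    ((measurable_pi_apply i).prodMk (measurable_pi_apply j))

theorem measurableSet_attach (d n : ℕ) (i j : Fin n) :
    MeasurableSet {p : Fin n → Torus d n | Attach p i j} := by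
  by_cases h : j < i
  · have : {p : Fin n → Torus d n | Attach p i j} =
        (⋂ k : Fin n, ⋂ _ : k < i, {p | tdist (p i) (p j) ≤ tdist (p i) (p k)}) ∩
          ⋂ k : Fin n, ⋂ _ : k < j, {p | tdist (p i) (p j) < tdist (p i) (p k)} := by
      ext p
      simp only [Attach, h, true_and, Set.mem_ofPred_eq, Set.mem_inter_iff, Set.mem_iInter]
    rw [this]
    refine MeasurableSet.inter ?_ ?_
    · exact MeasurableSet.iInter fun k => MeasurableSet.iInter fun _ =>
        measurableSet_le (measurable_pair d n i j) (measurable_pair d n i k)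
    · exact MeasurableSet.iInter fun k => MeasurableSet.iInter fun _ =>
        measurableSet_lt (measurable_pair d n i j) (measurable_pair d n i k)
  · have : {p : Fin n → Torus d n | Attach p i j} = ∅ := by
      ext p
      simp [Attach, h]
    rw [this]
    exact MeasurableSet.empty

theorem measurableSet_tree (d n : ℕ) (G : SimpleGraph (Fin n)) :
    MeasurableSet {p : Fin n → Torus d n | nnTree p = G} := by
  have : {p : Fin n → Torus d n | nnTree p = G} =
      ⋂ a : Fin n, ⋂ b : Fin n, {p | (Attach p a b ∨ Attach p b a) ↔ G.Adj a b} := by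
    ext p
    simp only [Set.mem_ofPred_eq, Set.mem_iInter]
    constructor
    · rintro rfl a b
      exact Iff.rfl
    · intro h
      ext a b
      exact h a b
  rw [this]
  refine MeasurableSet.iInter fun a => MeasurableSet.iInter fun b => ?_
  by_cases hG : G.Adj a b
  · simp only [hG, iff_true]
    exact (measurableSet_attach d n a b).union (measurableSet_attach d n b a)
  · simp only [hG, iff_false]
    exact ((measurableSet_attach d n a b).union (measurableSet_attach d n b a)).compl

/-- the success event is measurable -/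
theorem measurableSet_success (d n : ℕ) [NeZero n] (H : SimpleGraph (Fin n) → Finset (Fin n)) :
    MeasurableSet (Success d n H) := by
  have : Success d n H = ⋃ σ : Equiv.Perm (Fin n), ⋃ G : SimpleGraph (Fin n),
      ⋃ _ : σ 0 ∈ H (G.map σ.toEmbedding), {p | nnTree p = G} ×ˢ {σ} := by
    ext ⟨p, σ⟩
    simp only [Success, Set.mem_ofPred_eq, Set.mem_iUnion, Set.mem_prod, Set.mem_singleton_iff]
    constructor
    · intro h
      exact ⟨σ, nnTree p, h, rfl, rfl⟩
    · rintro ⟨σ', G, h, h1, h2⟩
      subst h1 h2
      exact h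
  rw [this]
  refine MeasurableSet.iUnion fun σ => MeasurableSet.iUnion fun G => MeasurableSet.iUnion fun _ => ?_
  exact (measurableSet_tree d n G).prod (measurableSet_singleton σ)

open Pool.Agent.Helper40K9.RF in
/-- the scaled configuration -/
noncomputable def conf (d n : ℕ) [NeZero n] (ω : ℕ → (Fin d → AddCircle (1 : ℝ))) :
    Fin n → Torus d n := fun i k => scl (side d n) (ω i.1 k)

open Pool.Agent.Helper40K9.RF in
theorem conf_dist (d n : ℕ) [NeZero n] (ω : ℕ → (Fin d → AddCircle (1 : ℝ))) (i j : Fin n) :
    tdist (conf d n ω i) (conf d n ω j) = side d n * tD d 1 (ω i.1) (ω j.1) := by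
  unfold tdist tD conf
  have h0 : 0 < side d n := (side_pos d n).out
  simp only [scl_dist, mul_pow]
  rw [← Finset.mul_sum, Real.sqrt_mul (sq_nonneg _), Real.sqrt_sq h0.le]

open Pool.Agent.Helper40K9.RF in
theorem attach_iff (d n : ℕ) [NeZero n] (ω : ℕ → (Fin d → AddCircle (1 : ℝ))) (i j : Fin n) :
    Attach (conf d n ω) i j ↔ j.1 < i.1 ∧ par (tD d 1) ω i.1 = j.1 := by
  have h0 : 0 < side d n := (side_pos d n).out
  unfold Attach
  simp only [conf_dist, mul_le_mul_iff_right₀ h0, mul_lt_mul_iff_right₀ h0]
  constructor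
  · rintro ⟨h1, h2, h3⟩
    have h1' : j.1 < i.1 := h1
    refine ⟨h1', ?_⟩
    have h4 : IsNear (tD d 1) ω i.1 j.1 := ⟨h1', fun k hk => h2 ⟨k, by omega⟩ hk⟩
    have h5 := par_min (tD d 1) ω h4
    by_contra hne
    have h6 : par (tD d 1) ω i.1 < j.1 := by omega
    have h7 := h3 ⟨par (tD d 1) ω i.1, by omega⟩ h6
    have h8 := par_le (tD d 1) ω h1'
    exact absurd h7 (not_lt.2 h8)
  · rintro ⟨h1, h2⟩
    have h3 := par_near (tD d 1) ω (i := i.1) (by omega)
    rw [h2] at h3
    refine ⟨h1, fun k hk => h3.2 k.1 hk, fun k hk => ?_⟩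
    by_contra hcon
    push Not at hcon
    have hk' : k.1 < j.1 := hk
    have h4 : IsNear (tD d 1) ω i.1 k.1 := ⟨by omega, fun k' hk' => hcon.trans (h3.2 k' hk')⟩
    have h5 := par_min (tD d 1) ω h4
    omega

open Pool.Agent.Helper40K9.RF in
theorem tree_conf (d n : ℕ) [NeZero n] (ω : ℕ → (Fin d → AddCircle (1 : ℝ))) :
    nnTree (conf d n ω) = tree (par (tD d 1) ω) n := by
  ext a b
  show Attach _ a b ∨ Attach _ b a ↔ _
  rw [attach_iff, attach_iff]
  rfl

open Pool.Agent.Helper40K9.RF in
theorem conf_law (d n : ℕ) [NeZero n] :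
    MeasurePreserving (conf d n) (Pr (tμ d 1)) (Measure.pi fun _ : Fin n => unif d n) := by
  have hφ : MeasurePreserving (fun (x : Fin d → AddCircle (1 : ℝ)) k => scl (side d n) (x k))
      (tμ d 1) (unif d n) :=
    measurePreserving_pi _ _ fun _ => scl_measurePreserving
  have hm : Measurable (conf d n) := by
    rw [measurable_pi_iff]
    intro i
    exact hφ.measurable.comp (measurable_pi_apply i.1)
  refine ⟨hm, ?_⟩
  symm
  apply Measure.pi_eq
  intro s hs
  rw [Measure.map_apply hm (MeasurableSet.univ_pi hs)]
  have h1 : conf d n ⁻¹' (Set.pi Set.univ s) = Set.pi (Finset.range n : Set ℕ) (fun i =>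
      if h : i < n then (fun (x : Fin d → AddCircle (1 : ℝ)) k => scl (side d n) (x k)) ⁻¹' (s ⟨i, h⟩)
      else Set.univ) := by
    ext ω
    simp only [Set.mem_preimage, Set.mem_pi, Set.mem_univ, true_imp_iff, Finset.coe_range,
      Set.mem_Iio]
    constructor
    · intro h i hi
      rw [dif_pos hi]
      exact h ⟨i, hi⟩
    · intro h i
      have := h i.1 i.2
      rw [dif_pos i.2] at this
      exact this
  rw [h1, Measure.infinitePi_pi, Finset.prod_range]
  · refine Finset.prod_congr rfl fun i _ => ?_
    rw [dif_pos i.2]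
    exact hφ.measure_preimage (hs i).nullMeasurableSet
  · intro i hi
    rw [Finset.mem_range] at hi
    rw [dif_pos hi]
    exact hφ.measurable (hs ⟨i, hi⟩)

open Pool.Agent.Helper40K9.RF in
/-- For every `d ≥ 1` and every `ε ∈ (0, 1)` there are a number `K` and a rule `H` of size `K`, not
depending on `n`, which finds the root of `G_n` with probability at least `1 - ε`, for all
`n ≥ 1`. -/
theorem result (d : ℕ) (hd : 1 ≤ d) (ε : ℝ) (hε : 0 < ε) (hε1 : ε < 1) :
    ∃ (K : ℕ) (H : (n : ℕ) → SimpleGraph (Fin n) → Finset (Fin n)),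
      (∀ (n : ℕ) (G : SimpleGraph (Fin n)), (H n G).card ≤ K) ∧
      ∀ (n : ℕ) [NeZero n], MeasurableSet (Success d n (H n)) ∧
        1 - ε ≤ (law d n).real (Success d n (H n)) := by
  obtain ⟨δ, K, hK⟩ := uniform_rule (reg_torus d hd) hε
  refine ⟨K, rule δ K, fun n G => rule_card δ K n G, fun n hn => ⟨measurableSet_success d n _, ?_⟩⟩
  have h1 : Success d n (rule δ K n) = {p | (0 : Fin n) ∈ rule δ K n (nnTree p)} ×ˢ Set.univ := by
    ext ⟨p, σ⟩
    simp only [Success, Set.mem_ofPred_eq, Set.mem_prod, Set.mem_univ, and_true]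
    exact rule_map δ K (nnTree p) σ 0
  rw [h1]
  unfold law
  rw [measureReal_prod_prod, probReal_univ, mul_one]
  refine (hK n).trans ?_
  unfold Measure.real
  apply ENNReal.toReal_mono (measure_ne_top _ _)
  rw [← (conf_law d n).map_eq]
  refine le_trans (measure_mono ?_) (Measure.le_map_apply (conf_law d n).measurable.aemeasurable _)
  intro ω hω
  simp only [Set.mem_preimage, Set.mem_ofPred_eq]
  rw [tree_conf]
  exact hω 0 rfl

end Pool.Agent.Results.MP_0a1a8a_pr.RootFinding
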